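import Pool.Agent.K7.H1.AH.Main
import Pool.Agent.K7.H1.AR.Count
set_option autoImplicit false

/-!
Unramified classes with linearly independent regulators in the Milnor K-theory (of degree
`dim X + 1`) of the hypersurfaces `λ g ∏_e L_e ^ (w_e + 1) = 1` over number fields, where the `L_e`
are affine forms which define different hyperplanes, and are arbitrary otherwise (no condition of
general position or unimodularity, no condition on the coefficients), and `g ≠ 0` is an arbitrary
polynomial (which may vanish at the vertices of the arrangement).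
-/

namespace Pool.Agent.Results.MP_51fc19_nt.ArrangementHypersurfaces

open Pool.Agent.TH826.MK (KQ symb Unramified Torus)

open Pool.Agent.TH826.GA (cm vtx)

open Pool.Agent.TH577.UA (ARing acst apol aeqn aent Ix)

open Pool.Agent.K7.H1.AR (Clr expo)

/-- Let `σ` be a complex embedding of the number field `K`, let `L_e = ∑_j c_{e,j} x_j - a_e`,
`0 ≤ e ≤ m`, be affine forms in `d + 1` variables over `K`, no one of which is a multiple of another
one, and whose linear parts have rank `d + 1`. Let `w_e ≥ 0`, and let `g ≠ 0` be an arbitrary
polynomial over `K`.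

There are positive integers `D` which clear the denominators of finitely many numbers determined by
the arrangement and by `g` (the structure `Clr`), and there is a constant `C`, such that for all
these `D`, all algebraic integers `μ` of `K` and `λ = D ^ N μ` (with the explicit exponent
`N = expo m g w`), `|σ λ| ≥ C`, the following holds for the coordinate ring `A = ARing lam g w c a`
of the hypersurface `λ g ∏_e L_e ^ (w_e + 1) = 1` of dimension `d`.

If `g = 1`, the hypersurface is smooth (the gradient does not vanish at the complex points over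
`σ`), and if moreover `d ≥ 1` and `w_e = 0` for a nonconstant form `L_e`, the ring `A` is a domain.

For all `T = (T_0, ..., T_d)` with linearly independent linear parts the symbol `{u_0, ..., u_d}`,
`u_i = κ_i L_{T_i} / L_{h_i}`, where `h_i` is the largest index such that the linear parts of the
forms `T` with `T_i` replaced by `h_i` are linearly independent and `κ_i` is the quotient of the
determinants of these linear parts and of those of `T`, has unramified images in the Milnor K-theory
of all fields `L` with a homomorphism `A → L`.

There are tori `Γ_T` of dimension `d` in the smooth part of the complex points (over `σ`) of the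
hypersurface, such that the determinant of the regulators of the symbols of the `T'` on the tori
`Γ_T` does not vanish; `T` and `T'` run through the set `Ix` of all `T_0 < ... < T_d` with linearly
independent linear parts such that every `T_i` can be replaced by a later form (with linearly
independent linear parts) and every other form which vanishes at the vertex of `T` can replace a
later form `T_i` (the bases without broken circuits and of internal activity zero).

If the arrangement is in general position, that is if any `d + 1` of the linear parts are linearly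
independent and no `d + 2` of the forms have a common zero, the number of elements of `Ix` is
`binom(m, d + 1)`. For `d = 1`, `g = 1` and `w = 0` this is the genus of the closure of the curve in
the projective plane, if it is smooth. -/
theorem result.{u, v} {K : Type u} [Field K] [NumberField K] {d m : ℕ} (σ : K →+* ℂ)
    (c : Fin (m + 1) → Fin (d + 1) → K) (a : Fin (m + 1) → K)
    (hD : ∀ e e', e ≠ e' → ∀ κ : K, ¬ ((∀ j, c e j = κ * c e' j) ∧ a e = κ * a e'))
    (hR : ∃ T : Fin (d + 1) → Fin (m + 1), (cm c T).det ≠ 0)
    (w : Fin (m + 1) → ℕ) (g : MvPolynomial (Fin (d + 1)) K) (hg : g ≠ 0) :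
    ((∃ D : ℕ, Clr g c a D) ∧ ∃ C : ℝ, ∀ D : ℕ, Clr g c a D →
      ∀ mu lam : K, IsIntegral ℤ mu → lam = (D : K) ^ expo m g w * mu → C ≤ ‖σ lam‖ →
      (g = 1 →
        (∀ x : Fin (d + 1) → ℂ, MvPolynomial.eval₂ σ x (aeqn lam g w c a) = 0 →
          ∃ j, MvPolynomial.eval₂ σ x (MvPolynomial.pderiv j (aeqn lam g w c a)) ≠ 0) ∧
        (1 ≤ d → (∃ e, w e = 0 ∧ ∃ j, c e j ≠ 0) → IsDomain (ARing lam g w c a))) ∧
      (∀ (L : Type v) [Field L] (f : ARing lam g w c a →+* L)
        (T : Fin (d + 1) → Fin (m + 1)), (cm c T).det ≠ 0 →
          KQ.map (d + 1) f (symb (aent lam g w c a T)) ∈ Unramified L (d + 1)) ∧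
      ∃ Γ : Ix c a → Torus (ARing lam g w c a) d,
        (∀ T, (∀ θ x, (Γ T).e θ (acst lam g w c a x) = σ x) ∧
          ∀ θ, ∃ j, (Γ T).e θ
            (apol lam g w c a (MvPolynomial.pderiv j (aeqn lam g w c a))) ≠ 0) ∧
        (Matrix.of fun T T' : Ix c a =>
          (Γ T).reg (symb (aent lam g w c a T'.1))).det ≠ 0) ∧
    ((∀ T : Fin (d + 1) → Fin (m + 1), Function.Injective T → (cm c T).det ≠ 0 ∧
      ∀ e, (∀ j, T j ≠ e) → ∑ j, c e j * vtx c a T j ≠ a e) →
      Nat.card (Ix c a) = m.choose (d + 1)) := by
  refine ⟨⟨Pool.Agent.K7.H1.AR.exists_clr g c a, ?_⟩,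
    fun h => Pool.Agent.K7.H1.AR.card_Ix (fun T hT => (h T hT).1) fun T hT => (h T hT).2⟩
  obtain ⟨c1, hc1, h⟩ := Pool.Agent.K7.H1.AH.exists_tori (g := g) (w := w) σ hD hg
  obtain ⟨c2, h2⟩ := Pool.Agent.TH577.UA.exists_smooth (a := a) σ hR w
  refine ⟨max c1 c2, fun D hDc mu lam hmu hlam hl => ?_⟩
  have hl1 : c1 ≤ ‖σ lam‖ := (le_max_left _ _).trans hl
  have hl0 : lam ≠ 0 := by
    intro h0
    rw [h0, map_zero, norm_zero] at hl1
    linarith
  refine ⟨fun hg1 => ?_, fun L _ f T hT =>
    Pool.Agent.K7.H1.AH.symb_mem_unramified f hDc hmu hlam hT, h lam hl1⟩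
  clear hlam
  subst hg1
  refine ⟨h2 lam ((le_max_right _ _).trans hl), fun hd ⟨e, he1, he2⟩ => ?_⟩
  obtain ⟨d', rfl⟩ : ∃ d', d = d' + 1 := ⟨d - 1, by omega⟩
  exact Pool.Agent.TH577.UA.isDomain_ARing hR hD he2 he1 hl0

end Pool.Agent.Results.MP_51fc19_nt.ArrangementHypersurfaces
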