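import Pool.Agent.K7.H52.TF.Unr
import Pool.Agent.K7.H52.TF.Gen
import Pool.Agent.K7.H52.TF.Dom
import Pool.Agent.K7.H52.TF.Temp2
set_option autoImplicit false

/-!
The regulator on `H^d(𝒳, ℚ(d))`, `d = dim 𝒳 = q + n + 1`, for models `𝒳` of the hypersurfaces

`λ g(y, x) ∏_j ∏_i (x_j - φ_{j,i}(x_{j+1}, ..., x_n)) = ψ(y_0, ..., y_{q-1})`

of dimension `q + n` (or rather of their open parts `y_0 ... y_{q-1} ψ(y) ≠ 0`) over an arbitrary
number field, where `ψ` is a tempered polynomial, the exponents of the `y` in `g` are interior points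
of the Newton polytope of `ψ`, and `λ` is a large algebraic integer: the `∏_j r_j` symbols with the
entries `y_0, ..., y_{q-1}`, `(x_j - φ_{j,k_j + 1}) / (x_j - φ_{j,0})` are unramified at all discrete
valuations, and their regulators are linearly independent.

For `q = 0`, `ψ = 1` these are the towers of graphs of the starting result `GraphTowers`. For `q ≥ 1`
the projection to the coordinates `x` is a fibration in toric hypersurfaces, for example in
the hypersurfaces `ψ(y) = c y_0 ... y_{q-1}`: the tempered polynomials `ψ` include the sums of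
monomials with roots of unity as coefficients and affinely independent exponents (fibres of Fermat and
Delsarte type), the monic polynomials in one variable over the algebraic integers all of whose roots
are roots of unity, the polynomials of the nodal curves `y_0 + 1/y_0 + y_1 + 1/y_1 = ± 4`, and the
products and the nonsingular monomial substitutions of these.
-/

namespace Pool.Agent.Results.MP_51fc19_nt.TemperedFibrations

open Pool.Agent.TH826.MK (KQ symb Unramified Torus)

open Pool.Agent.K7.H52.TF

open MvPolynomial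

section defs

variable {K : Type*} [Field K] {q n : ℕ}

/-- At all complex points (over `σ`) of the hypersurface with `ψ(y) ≠ 0` the gradient of the equation
is not zero. -/
def Smooth (σ : K →+* ℂ) (A : Fib K q n) (lam : K) : Prop :=
  ∀ x : Fin (q + n + 1) → ℂ, eval₂ σ x (A.eqn lam) = 0 → eval₂ σ x A.psi' ≠ 0 →
    ∃ i, eval₂ σ x (pderiv i (A.eqn lam)) ≠ 0

/-- The polynomial `g ∏_{j > 0} ∏_i (x_j - φ_{j,i})`. -/
noncomputable def coef (A : Fib K q n) : MvPolynomial (Fin (q + n + 1)) K :=
  A.g * ∏ j ∈ Finset.univ.erase 0, ∏ i, A.fac j i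

/-- If `g` does not contain the variable `x_0` and is relatively prime to `ψ`, and if either `n ≥ 1`
and `g` is not divisible by all of the polynomials `x_n - φ_{n,i}` (where the `φ_{n,i}` are
constants), or some irreducible polynomial `p` divides `g ∏_{j > 0} ∏_i (x_j - φ_{j,i})` but `p ^ 2`
does not, then the coordinate ring of the open part of the hypersurface is a domain. -/
def Domain (A : Fib K q n) (lam : K) : Prop :=
  xi 0 ∉ A.g.vars → IsRelPrime A.g A.psi' →
    ((1 ≤ n ∧ ∃ i, ¬ A.fac (Fin.last n) i ∣ A.g) ∨
      ∃ p, Irreducible p ∧ p ∣ coef A ∧ ¬ p ^ 2 ∣ coef A) →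
    IsDomain (A.ORing lam)

/-- The symbols have unramified images in `K_{q+n+1} ⊗ ℚ` of all fields `L` with a homomorphism from
the coordinate ring to `L` (for example of the function field of the hypersurface). -/
def UnramifiedSymbols.{u, v} {K : Type u} [Field K] {q n : ℕ} (A : Fib K q n) (lam : K) : Prop :=
  ∀ (L : Type v) [Field L] (f : A.ORing lam →+* L) (k : ∀ j, Fin (A.r j)),
    KQ.map (q + n + 1) f (symb (A.ent lam k)) ∈ Unramified L (q + n + 1)

/-- The torus lies in the complex points over `σ`. -/
def Over (σ : K →+* ℂ) (A : Fib K q n) (lam : K) (Γ : Torus (A.ORing lam) (q + n)) : Prop :=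
  ∀ θ (x : K), Γ.e θ (A.mkO lam (C x)) = σ x

/-- The matrix of the regulators of the symbols on the tori `Γ_t`. -/
noncomputable def regMat (A : Fib K q n) (lam : K)
    (Γ : (∀ j, Fin (A.r j)) → Torus (A.ORing lam) (q + n)) :
    Matrix (∀ j, Fin (A.r j)) (∀ j, Fin (A.r j)) ℝ :=
  Matrix.of fun t k => (Γ t).reg (symb (A.ent lam k))

/-- There are `∏_j r_j` tori of dimension `q + n` in the complex points (over `σ`) of the open part of
the hypersurface, such that the determinant of the regulators of the `∏_j r_j` symbols on the tori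
does not vanish. -/
def IndependentRegulators (σ : K →+* ℂ) (A : Fib K q n) (lam : K) : Prop :=
  ∃ Γ : (∀ j, Fin (A.r j)) → Torus (A.ORing lam) (q + n),
    (∀ t, Over σ A lam (Γ t)) ∧ (regMat A lam Γ).det ≠ 0

/-- The smallest class of polynomials which contains the tempered polynomials, the polynomials

* `∑_i a_i y^{s_i}` with roots of unity `a_i` and affinely independent exponents `s_0, ..., s_k`,
* monic polynomials in one variable with integral coefficients which divide `(Y^N - 1)^M`,
* `y_0 y_1 (y_0 + 1/y_0 + y_1 + 1/y_1 - 4 e)`, `e = ± 1`,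

and with `P(y_0, ..., y_{q-1})` and `Q(y_0, ..., y_{q-1})` also `P Q`, `P` as a polynomial in more
variables and `P(y^{M_0}, ..., y^{M_{q-1}})` for `det M ≠ 0`. -/
inductive Admissible.{u, v} {K : Type u} [Field K] :
    ∀ {q : ℕ}, MvPolynomial (Fin q) K → Prop
  | tempered {q : ℕ} (P : MvPolynomial (Fin q) K) : Tempered.{u, v} P → Admissible P
  | sum {q k : ℕ} (a : Fin (k + 1) → K) (s : Fin (k + 1) → Fin q →₀ ℕ) :
      (∀ i, ∃ m : ℕ, 0 < m ∧ a i ^ m = 1) →
      (LinearIndependent ℚ fun (i : Fin k) (l : Fin q) => ((s i.succ l : ℚ) - (s 0 l : ℚ))) →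
      Admissible (∑ i, monomial (s i) (a i))
  | oneVariable (p : Polynomial K) (N M : ℕ) : 0 < N → p.Monic →
      (∀ i, IsIntegral ℤ (p.coeff i)) → p ∣ (Polynomial.X ^ N - 1) ^ M →
      Admissible (p.eval₂ C (X 0) : MvPolynomial (Fin 1) K)
  | nodal (e : K) : e ^ 2 = 1 →
      Admissible (X 0 ^ 2 * X 1 + X 1 + X 0 * X 1 ^ 2 + X 0 - C (4 * e) * (X 0 * X 1) :
        MvPolynomial (Fin 2) K)
  | product {q : ℕ} (P Q : MvPolynomial (Fin q) K) : Admissible P → Admissible Q →
      Admissible (P * Q)
  | moreVariables {p q : ℕ} (P : MvPolynomial (Fin p) K) (ι : Fin p → Fin q) :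
      Function.Injective ι → Admissible P → Admissible (rename ι P)
  | monomials {q : ℕ} (P : MvPolynomial (Fin q) K) (M : Fin q → Fin q →₀ ℕ) :
      (Matrix.of fun i l : Fin q => (M i l : ℤ)).det ≠ 0 → Admissible P →
      Admissible (bind₁ (fun l => monomial (M l) 1) P)

theorem Admissible.isTempered.{u, v} {K : Type u} [Field K] {q : ℕ} {P : MvPolynomial (Fin q) K}
    (h : Admissible.{u, v} P) : Tempered.{u, v} P := by
  induction h with
  | tempered P h => exact h
  | sum a s ha hs => exact tempered_sumPoly a s ha hs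
  | oneVariable p N M hN hp hi h => exact tempered_cyc hp hi hN h
  | nodal e he => exact tempered_nodal he
  | product P Q _ _ hP hQ => exact tempered_mul hP hQ
  | moreVariables P ι hι _ hP => exact tempered_rename hP ι hι
  | monomials P M hM _ hP => exact tempered_subMono hP M hM

end defs

/-- Let `σ` be a complex embedding of the number field `K`. For `0 ≤ j ≤ n` let `r_j ≥ 0`, and let
`φ_{j,0}, ..., φ_{j,r_j}` be different polynomials in the variables `x_{j+1}, ..., x_n` (constants for
`j = n`) whose coefficients are algebraic integers of `K`; let `g ≠ 0` be a polynomial in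
`y_0, ..., y_{q-1}, x_0, ..., x_n` and `ψ ≠ 0` a polynomial in `y_0, ..., y_{q-1}` whose coefficients
are algebraic integers of `K`, such that `ψ` belongs to the class `Admissible` (for example, is
tempered, or is a product of sums of monomials with roots of unity as coefficients and affinely
independent exponents) and the exponents of the `y` in the monomials of `g` belong to the interior of
the Newton polytope of `ψ`. There is a constant `C` such that for all algebraic integers `λ` of `K`
with `|σ λ| ≥ C` the following holds for the hypersurface `λ g ∏_j ∏_i (x_j - φ_{j,i}) = ψ(y)` of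
dimension `q + n`:

it has no singular points over `σ` with `ψ ≠ 0`; under the conditions of `Domain` the coordinate ring of
its open part `y_0 ... y_{q-1} ψ(y) ≠ 0` is a domain; for all `k = (k_0, ..., k_n)`,
`0 ≤ k_j < r_j`, the symbol
`{y_0, ..., y_{q-1}, (x_0 - φ_{0,k_0+1})/(x_0 - φ_{0,0}), ..., (x_n - φ_{n,k_n+1})/(x_n - φ_{n,0})}`
in `K_{q+n+1} ⊗ ℚ` of the coordinate ring has an unramified image in `K_{q+n+1} ⊗ ℚ` of every field
`L` with a homomorphism from the coordinate ring to `L`; and there are `∏_j r_j` tori of dimension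
`q + n` in the complex points (over `σ`) of the open part such that the determinant of the regulators
of these `∏_j r_j` symbols on the tori does not vanish. -/
theorem result.{u, v} (q n : ℕ) (K : Type u) [Field K] [NumberField K] (σ : K →+* ℂ)
    (A : Fib K q n) (hG : A.Graphs) (hI : A.Integral) (hN : A.Interior)
    (hA : Admissible.{u, v} A.psi) :
    ∃ C : ℝ, ∀ lam : K, IsIntegral ℤ lam → C ≤ ‖σ lam‖ →
      Smooth σ A lam ∧ Domain A lam ∧ UnramifiedSymbols.{u, v} A lam ∧
      IndependentRegulators σ A lam := by
  have hT := hA.isTempered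
  obtain ⟨Λ, hΛ1, hΛ⟩ := exists_tori σ hG hN
  obtain ⟨Λ', hΛ'1, hΛ'⟩ := exists_smooth A σ
  refine ⟨max Λ Λ', fun lam hlam hl => ?_⟩
  have hl1 := (le_max_left _ _).trans hl
  have hl2 := (le_max_right _ _).trans hl
  have hl0 : lam ≠ 0 := by
    rintro rfl
    rw [map_zero, norm_zero] at hl1
    linarith
  refine ⟨hΛ' lam hl2, ?_,
    fun L _ f k => symb_mem_unramified f hG hI hN (fun f v y h => hT L f v y h) hlam k,
    hΛ lam hl1⟩
  intro hg hrel h
  refine isDomain_ORing A hG hl0 hg ?_
  rcases h with ⟨hn, i, hi⟩ | ⟨p, hp, h1, h2⟩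
  · exact irreducible_eqn A hn hG hl0 hg hrel hi
  · exact irreducible_of_simple A hG hl0 hg hrel hp ((dvd_lc hl0 p).2 h1)
      (fun h => h2 ((dvd_lc hl0 _).1 h))

end Pool.Agent.Results.MP_51fc19_nt.TemperedFibrations
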