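import Pool.Agent.K7.H1.TU.Main
set_option autoImplicit false

/-!
Regulators at two archimedean places, in weight `dim X + 1`, for `i = dim X`: the hypersurfaces

`λ ∏_e ∏_{i ≤ r_e} (x^{α_e} - ζ_{e,i}) ^ (w_{e,i} + 1) = x^γ`

in the torus `G_m^(d+1)` over a number field, for arbitrary characters `x^{α_e} ≠ 1`, roots of unity
`ζ_{e,i}`, an exponent `γ` in the interior of the Newton polytope of the product, and a unit `λ`
which is large at the place `σ` and small at the place `τ`.
-/

namespace Pool.Agent.Results.MP_51fc19_nt.ToricUnitPencils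

open Pool.Agent.TH826.MK (KQ symb Unramified Torus)

open Pool.Agent.K7.H1.TO

open Pool.Agent.K7.H1.TO.Arr (Ix)

open Pool.Agent.K7.H1.TU (Inner uent exists_tori2 tx_mem_unramified)

/-- The conclusions for the hypersurface with the parameter `λ` and the embeddings `σ`, `τ`. -/
def Concl.{u, v} {K : Type u} [Field K] {d m : ℕ} (σ τ : K →+* ℂ) (F : Arr K d m)
    (lam : K) : Prop :=
  (∀ (L : Type v) [Field L] (f : F.TRing lam →+* L),
    KQ.map (d + 1) f (symb (F.tx lam)) ∈ Unramified L (d + 1) ∧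
    ∀ (T : Fin (d + 1) → Fin m) (k : ∀ l, Fin (F.r (T l))), (F.mat T).det ≠ 0 →
      KQ.map (d + 1) f (symb (F.ent lam T k)) ∈ Unramified L (d + 1)) ∧
  ∃ Γ : Option (Ix σ F) → Torus (F.TRing lam) d,
    (∀ θ x, (Γ none).e θ (F.tcst lam x) = τ x) ∧
    (∀ s θ x, (Γ (some s)).e θ (F.tcst lam x) = σ x) ∧
    (∀ t θ, ∃ j, (Γ t).e θ (F.tpol lam (dlog j (F.Phi lam))) ≠ 0) ∧
    (Matrix.of fun t o : Option (Ix σ F) => (Γ t).reg (symb (uent σ F lam o))).det ≠ 0

/-- Let `K` be a number field, let `α_e ∈ ℤ^(d+1)`, `e < m`, be different from `0`, for each `e` let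
`ζ_{e,0}, ..., ζ_{e,r_e}` be different roots of unity in `K`, and `w_{e,i} ≥ 0`, and let `γ` be in the
interior of the Newton polytope of `∏_e ∏_i (x^{α_e} - ζ_{e,i}) ^ (w_{e,i} + 1)`.

There is a constant `C` such that for all units `λ` of the ring of integers of `K` and all complex
embeddings `σ`, `τ` with `|σ λ| ≥ C`, `|τ λ| C ≤ 1` the following holds for the coordinate ring
`A = F.TRing lam` of the hypersurface `λ ∏_e ∏_i (x^{α_e} - ζ_{e,i}) ^ (w_{e,i} + 1) = x^γ` of
dimension `d` in the torus (all `x_j ≠ 0`).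

The symbol `{x_0, ..., x_d}` and, for all `T = (T_0, ..., T_d)` with linearly independent characters
`α_{T_l}` and `0 ≤ k_l < r_{T_l}`, the symbol `{u_0, ..., u_d}`,
`u_l = (x^α - ζ_{e,k_l+1}) / (x^α - ζ_{e,0})`, `e = T_l`, `α = α_e`, have unramified images in the Milnor
K-theory of all fields `L` with a homomorphism `A → L` (for example of the function fields of the
components of the hypersurface).

Let `Ix` be the set of all `(T, k)` with `T_0 < ... < T_d` and linearly independent characters such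
that there is a common point `P` in `(ℂ^*)^(d+1)` of the subtori `x^{α_e} = ζ_{e,k_l+1}`,
`e = T_l` (over `σ`), with the property that every other `e`, for which some of the subtori
`x^{α_e} = ζ_{e,i}` contains `P`, can replace some `T_l > e` in the independent system. There are
tori of dimension `d` in the smooth part of the complex points of the hypersurface (some logarithmic
derivative `x_j ∂/∂x_j` of the equation does not vanish), one of them over `τ` and for each
element of `Ix` one over `σ`, such that the determinant of the regulators of the `1 + |Ix|` symbols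
`{x_0, ..., x_d}`, `{u_0, ..., u_d}` for the elements of `Ix` on these tori does not vanish.

For each unit `e` which is not a root of unity there are `σ`, `τ` such that all this is true for all
powers `λ = e^m` with large `m`. -/
theorem result.{u, v} {K : Type u} [Field K] [NumberField K] {d m : ℕ} (F : Arr K d m)
    (hα : ∀ e, F.al e ≠ 0) (hz : ∀ e i, ∃ n : ℕ, 0 < n ∧ F.z e i ^ n = 1)
    (hinj : ∀ e, Function.Injective (F.z e)) (hg : F.g = 1) (hin : Inner F) :
    (∃ C : ℝ, ∀ (σ τ : K →+* ℂ) (lam : K), IsIntegral ℤ lam → IsIntegral ℤ lam⁻¹ →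
      C ≤ ‖σ lam‖ → ‖τ lam‖ * C ≤ 1 → Concl.{u, v} σ τ F lam) ∧
    ∀ e : K, e ≠ 0 → IsIntegral ℤ e → IsIntegral ℤ e⁻¹ → (∀ k : ℕ, 0 < k → e ^ k ≠ 1) →
      ∃ (σ τ : K →+* ℂ) (M : ℕ), ∀ n ≥ M, Concl.{u, v} σ τ F (e ^ n) := by
  classical
  have hz0 : ∀ e i, F.z e i ≠ 0 := by
    intro e i h
    obtain ⟨n, hn, h1⟩ := hz e i
    rw [h, zero_pow hn.ne'] at h1
    exact zero_ne_one h1
  have hgi : ∀ k, IsIntegral ℤ (F.g.coeff k) := by
    intro k
    rw [hg, MvPolynomial.coeff_one]
    split_ifs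
    · exact isIntegral_one
    · exact isIntegral_zero
  have h1 : ∃ C : ℝ, ∀ (σ τ : K →+* ℂ) (lam : K), IsIntegral ℤ lam → IsIntegral ℤ lam⁻¹ →
      C ≤ ‖σ lam‖ → ‖τ lam‖ * C ≤ 1 → Concl.{u, v} σ τ F lam := by
    choose M hM0 hM using fun σ τ : K →+* ℂ => exists_tori2 (F := F) σ τ hα hz0 hinj hg hin
    have hMle : ∀ σ τ, M σ τ ≤ ∑ σ, ∑ τ, M σ τ := fun σ τ =>
      (Finset.single_le_sum (f := fun τ => M σ τ) (fun τ _ => (hM0 σ τ).le)
        (Finset.mem_univ τ)).trans
      (Finset.single_le_sum (f := fun σ => ∑ τ, M σ τ)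
        (fun σ _ => Finset.sum_nonneg fun τ _ => (hM0 σ τ).le) (Finset.mem_univ σ))
    refine ⟨∑ σ, ∑ τ, M σ τ, fun σ τ lam hi hi' hσ hτ => ?_⟩
    have hl0 : lam ≠ 0 := by
      rintro rfl
      rw [map_zero, norm_zero] at hσ
      have := hMle σ τ
      have := hM0 σ τ
      linarith
    refine ⟨fun L _ f => ⟨tx_mem_unramified f hz hα hg hin hi hi' hl0, fun T k hT =>
      Arr.symb_mem_unramified f hz hgi hi hT k⟩, ?_⟩
    refine hM σ τ lam hl0 ((hMle σ τ).trans hσ) ?_
    exact (mul_le_mul_of_nonneg_left (hMle σ τ) (norm_nonneg _)).trans hτ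
  refine ⟨h1, fun e he0 he he' hne => ?_⟩
  obtain ⟨C, hC⟩ := h1
  obtain ⟨σ, τ, M, hM⟩ := Pool.Agent.TH333.UP.exists_pow he he' hne he0 C
  refine ⟨σ, τ, M, fun n hn => hC σ τ _ (he.pow n) ?_ (hM n hn).1 (hM n hn).2⟩
  rw [← inv_pow]
  exact he'.pow n

end Pool.Agent.Results.MP_51fc19_nt.ToricUnitPencils
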