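import Pool.Agent.K7.H1.PP.Main
import Pool.Agent.K7.H1.PP.Unr
set_option autoImplicit false

/-!
Regulators at two archimedean places, in weight `dim X + 1`, for `i = dim X`: the varieties

`λ x^{-γ} ∏_e ∏_i (x^{α_e} - ζ_{e,i}) ^ (w_{e,i} + 1) =
  y^{-δ} ∏_e ∏_i (y^{β_e} - ξ_{e,i}) ^ (v_{e,i} + 1)`

in the product of two tori over a number field, where the `x^{α_e}`, `y^{β_e}` are arbitrary
characters different from `1`, the `ζ_{e,i}`, `ξ_{e,i}` are roots of unity, `γ` and `δ` are in the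
interiors of the Newton polytopes of the products, and `λ` is a unit which is large at the place `σ`
and small at the place `τ`. For `dim X = 1` these are the curves
`λ x^{-γ} ∏_i (x - ζ_i) ^ (w_i + 1) = y^{-δ} ∏_i (y - ξ_i) ^ (v_i + 1)`.
-/

namespace Pool.Agent.Results.MP_51fc19_nt.TwoSidedToricPencils

open Pool.Agent.TH826.MK (KQ symb Unramified Torus)

open Pool.Agent.K7.H1.TO

open Pool.Agent.K7.H1.TO.Arr (Ix)

open Pool.Agent.K7.H1.TU (Inner)

open Pool.Agent.K7.H1.PP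

/-- The symbols `{u_0, ..., u_d, y_0, ..., y_q}` with the `u_l` of the arrangement `F` are
unramified. -/
def UnrX.{u, v} {K : Type u} [Field K] {d q m m' : ℕ} (F : Arr K d m) (G : Arr K q m')
    (lam : K) : Prop :=
  ∀ (L : Type v) [Field L] (f : PRing F G lam →+* L) (T : Fin (d + 1) → Fin m)
    (k : ∀ l, Fin (F.r (T l))), (F.mat T).det ≠ 0 →
      KQ.map (d + 1 + (q + 1)) f (symb (Fin.append (entx F G lam T k) (uy F G lam))) ∈
        Unramified L (d + 1 + (q + 1))

/-- The symbols `{x_0, ..., x_d, u'_0, ..., u'_q}` with the `u'_l` of the arrangement `G` are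
unramified. -/
def UnrY.{u, v} {K : Type u} [Field K] {d q m m' : ℕ} (F : Arr K d m) (G : Arr K q m')
    (lam : K) : Prop :=
  ∀ (L : Type v) [Field L] (f : PRing F G lam →+* L) (T : Fin (q + 1) → Fin m')
    (k : ∀ l, Fin (G.r (T l))), (G.mat T).det ≠ 0 →
      KQ.map (d + 1 + (q + 1)) f (symb (Fin.append (ux F G lam) (enty F G lam T k))) ∈
        Unramified L (d + 1 + (q + 1))

/-- The torus is over `σ` and in the smooth part of the variety. -/
def Over {K : Type*} [Field K] {d q m m' : ℕ} {F : Arr K d m} {G : Arr K q m'} {lam : K}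
    (Γ : Torus (PRing F G lam) (d + 1 + q)) (σ : K →+* ℂ) : Prop :=
  (∀ θ x, Γ.e θ (pcst F G lam x) = σ x) ∧
    ∀ θ, (∃ j, Γ.e θ (px F G lam (dlog j (F.Phi 1))) ≠ 0) ∨
      ∃ j, Γ.e θ (py F G lam (dlog j (G.Phi 1))) ≠ 0

/-- There are tori for which the regulators are independent. -/
def Regs {K : Type*} [Field K] {d q m m' : ℕ} (σ τ : K →+* ℂ) (F : Arr K d m) (G : Arr K q m')
    (lam : K) : Prop :=
  ∃ Γ : Ix σ F ⊕ Ix τ G → Torus (PRing F G lam) (d + 1 + q),
    (∀ s, Over (Γ (Sum.inl s)) σ) ∧ (∀ s, Over (Γ (Sum.inr s)) τ) ∧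
    (Matrix.of fun t o : Ix σ F ⊕ Ix τ G =>
      (Γ t).reg (symb (pent σ τ F G lam o))).det ≠ 0

/-- The conclusions for the variety with the parameter `λ` and the embeddings `σ`, `τ`. -/
def Concl.{u, v} {K : Type u} [Field K] {d q m m' : ℕ} (σ τ : K →+* ℂ) (F : Arr K d m)
    (G : Arr K q m') (lam : K) : Prop :=
  UnrX.{u, v} F G lam ∧ UnrY.{u, v} F G lam ∧ Regs σ τ F G lam

/-- Let `K` be a number field. Let `α_e ∈ ℤ^(d+1)`, `e < m`, be different from `0`, for each `e` let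
`ζ_{e,0}, ..., ζ_{e,r_e}` be different roots of unity in `K`, and `w_{e,i} ≥ 0`, and let `γ` be in
the interior of the Newton polytope of `∏_e ∏_i (x^{α_e} - ζ_{e,i}) ^ (w_{e,i} + 1)`; put
`Φ = x^{-γ} ∏_e ∏_i (x^{α_e} - ζ_{e,i}) ^ (w_{e,i} + 1)`. Let `β_e ∈ ℤ^(q+1)`, `e < m'`,
`ξ_{e,0}, ..., ξ_{e,s_e}`, `v_{e,i}`, `δ` be another system of such data and
`Ψ = y^{-δ} ∏_e ∏_i (y^{β_e} - ξ_{e,i}) ^ (v_{e,i} + 1)`.

There is a constant `C` such that for all units `λ` of the ring of integers of `K` and all complex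
embeddings `σ`, `τ` with `|σ λ| ≥ C`, `|τ λ| C ≤ 1` the following holds for the coordinate ring
`A = PRing F G lam` of the variety `X : λ Φ(x) = Ψ(y) ≠ 0` of dimension `d + q + 1` in the torus with
the coordinates `x_0, ..., x_d, y_0, ..., y_q`.

The symbols `{u_0, ..., u_d, y_0, ..., y_q}`, where
`u_l = (x^α - ζ_{e,k_l+1}) / (x^α - ζ_{e,0})`, `e = T_l`, `α = α_e`, for all `T = (T_0, ..., T_d)`
with linearly independent characters `α_{T_l}` and `0 ≤ k_l < r_{T_l}`, and the symbols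
`{x_0, ..., x_d, u'_0, ..., u'_q}`, where `u'_l = (y^β - ξ_{e,k_l+1}) / (y^β - ξ_{e,0})`, `e = T_l`,
`β = β_e`, for all `T = (T_0, ..., T_q)` with linearly independent characters `β_{T_l}` and
`0 ≤ k_l < s_{T_l}`, have unramified images in the Milnor K-theory of all fields `L` with a
homomorphism `A → L` (for example of the function fields of the components of `X`).

Let `Ix σ F` be the set of all `(T, k)` with `T_0 < ... < T_d` and linearly independent characters
such that there is a common point `P` in `(ℂ^*)^(d+1)` of the subtori `x^{α_e} = ζ_{e,k_l+1}`,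
`e = T_l` (over `σ`), with the property that every other `e`, for which some of the subtori
`x^{α_e} = ζ_{e,i}` contains `P`, can replace some `T_l > e` in the independent system; and let
`Ix τ G` be the corresponding set for the `β_e`, `ξ_{e,i}` and the embedding `τ`. There are tori of
dimension `d + q + 1` in the smooth part of the complex points of `X` (the differential of `Φ(x)` or
that of `Ψ(y)` does not vanish), for each element of `Ix σ F` one over `σ` and for each element of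
`Ix τ G` one over `τ`, such that the determinant of the regulators of the `|Ix σ F| + |Ix τ G|`
symbols of the elements of the two sets on these tori does not vanish.

For each unit `e` which is not a root of unity there are `σ`, `τ` such that all this is true for all
powers `λ = e^m` with large `m`. -/
theorem result.{u, v} {K : Type u} [Field K] [NumberField K] {d q m m' : ℕ} (F : Arr K d m)
    (G : Arr K q m') (hα : ∀ e, F.al e ≠ 0)
    (hz : ∀ e i, ∃ n : ℕ, 0 < n ∧ F.z e i ^ n = 1) (hinj : ∀ e, Function.Injective (F.z e))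
    (hg : F.g = 1) (hin : Inner F) (hα' : ∀ e, G.al e ≠ 0)
    (hz' : ∀ e i, ∃ n : ℕ, 0 < n ∧ G.z e i ^ n = 1) (hinj' : ∀ e, Function.Injective (G.z e))
    (hg' : G.g = 1) (hin' : Inner G) :
    (∃ C : ℝ, ∀ (σ τ : K →+* ℂ) (lam : K), IsIntegral ℤ lam → IsIntegral ℤ lam⁻¹ →
      C ≤ ‖σ lam‖ → ‖τ lam‖ * C ≤ 1 → Concl.{u, v} σ τ F G lam) ∧
    ∀ e : K, e ≠ 0 → IsIntegral ℤ e → IsIntegral ℤ e⁻¹ → (∀ k : ℕ, 0 < k → e ^ k ≠ 1) →
      ∃ (σ τ : K →+* ℂ) (M : ℕ), ∀ n ≥ M, Concl.{u, v} σ τ F G (e ^ n) := by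
  classical
  have hz0 : ∀ {n k : ℕ} (H : Arr K n k), (∀ e i, ∃ n : ℕ, 0 < n ∧ H.z e i ^ n = 1) →
      ∀ e i, H.z e i ≠ 0 := by
    intro _ _ H hH e i h
    obtain ⟨n, hn, h1⟩ := hH e i
    rw [h, zero_pow hn.ne'] at h1
    exact zero_ne_one h1
  have hgi : ∀ {n k : ℕ} (H : Arr K n k), H.g = 1 → ∀ k, IsIntegral ℤ (H.g.coeff k) := by
    intro _ _ H hH k
    rw [hH, MvPolynomial.coeff_one]
    split_ifs
    · exact isIntegral_one
    · exact isIntegral_zero
  have h1 : ∃ C : ℝ, ∀ (σ τ : K →+* ℂ) (lam : K), IsIntegral ℤ lam → IsIntegral ℤ lam⁻¹ →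
      C ≤ ‖σ lam‖ → ‖τ lam‖ * C ≤ 1 → Concl.{u, v} σ τ F G lam := by
    choose M hM0 hM using fun σ τ : K →+* ℂ => exists_tori3 (F := F) (G := G) σ τ hα (hz0 F hz)
      hinj hg hin hα' (hz0 G hz') hinj' hg' hin'
    have hMle : ∀ σ τ, M σ τ ≤ ∑ σ, ∑ τ, M σ τ := fun σ τ =>
      (Finset.single_le_sum (f := fun τ => M σ τ) (fun τ _ => (hM0 σ τ).le)
        (Finset.mem_univ τ)).trans
      (Finset.single_le_sum (f := fun σ => ∑ τ, M σ τ)
        (fun σ _ => Finset.sum_nonneg fun τ _ => (hM0 σ τ).le) (Finset.mem_univ σ))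
    refine ⟨∑ σ, ∑ τ, M σ τ, fun σ τ lam hi hi' hσ hτ => ?_⟩
    have hl0 : lam ≠ 0 := by
      rintro rfl
      rw [map_zero, norm_zero] at hσ
      have := hMle σ τ
      have := hM0 σ τ
      linarith
    refine ⟨fun L _ f T k hT => symA_mem f hz hz' (hgi F hg) hg' hα' hin' hi hT k,
      fun L _ f T k hT => symB_mem f hz hz' (hgi G hg') hg hα hin hi' hl0 hT k, ?_⟩
    obtain ⟨Γ, h1, h2, h3, h4⟩ := hM σ τ lam hl0 ((hMle σ τ).trans hσ)
      ((mul_le_mul_of_nonneg_left (hMle σ τ) (norm_nonneg _)).trans hτ)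
    exact ⟨Γ, fun s => ⟨h1 s, h3 _⟩, fun s => ⟨h2 s, h3 _⟩, h4⟩
  refine ⟨h1, fun e he0 he he' hne => ?_⟩
  obtain ⟨C, hC⟩ := h1
  obtain ⟨σ, τ, M, hM⟩ := Pool.Agent.TH333.UP.exists_pow he he' hne he0 C
  refine ⟨σ, τ, M, fun n hn => hC σ τ _ (he.pow n) ?_ (hM n hn).1 (hM n hn).2⟩
  rw [← inv_pow]
  exact he'.pow n

end Pool.Agent.Results.MP_51fc19_nt.TwoSidedToricPencils
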